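import Mathlib

set_option autoImplicit false

namespace Pool.Agent.H719Z.Euc
open IsDedekindDomain

open Classical in
/-- The norm on `R`: the number of elements of `R / xR` for nonzero `x`, and `0` for `x = 0`. -/
noncomputable def absN {R : Type*} [CommRing R] (x : R) : ℕ :=
  if x = 0 then 0 else Nat.card (R ⧸ Ideal.span {x})

/-- The norm of `k`, extended to the fraction field by the quotient rule, is less than one:
`k = a / b` with `a, b` in `R`, `b` nonzero, and the norm of `a` less than the norm of `b`. -/
def NormLtOne (R : Type*) [CommRing R] {K : Type*} [Field K] [Algebra R K] (k : K) : Prop :=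
  ∃ a b : R, b ≠ 0 ∧ k = algebraMap R K a / algebraMap R K b ∧ absN a < absN b

/-- The quadratic form `q(x) = sum of a i j * x i * x j`, evaluated in an `R`-algebra `A`. -/
def qf {R : Type*} [CommRing R] {n : ℕ} (a : Fin n → Fin n → R) {A : Type*} [CommRing A]
    [Algebra R A] (x : Fin n → A) : A :=
  ∑ i, ∑ j, algebraMap R A (a i j) * x i * x j

/-- `q` has no nonzero zero in `K^n`. -/
def Anisotropic {R : Type*} [CommRing R] (K : Type*) [Field K] [Algebra R K] {n : ℕ}
    (a : Fin n → Fin n → R) : Prop :=
  ∀ x : Fin n → K, x ≠ 0 → qf a x ≠ 0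

/-- For every `x` in `K^n` there is `y` in `R^n` such that `q(x - y)` has norm less than one. -/
def IsEuclideanForm {R : Type*} [CommRing R] (K : Type*) [Field K] [Algebra R K] {n : ℕ}
    (a : Fin n → Fin n → R) : Prop :=
  ∀ x : Fin n → K, ∃ y : Fin n → R, NormLtOne R (qf a (x - fun i => algebraMap R K (y i)))

/-- The lattice `R^n` inside `K^n`. -/
def stdLat (R : Type*) [CommRing R] (K : Type*) [Field K] [Algebra R K] (n : ℕ) :
    Submodule R (Fin n → K) :=
  Submodule.pi Set.univ (fun _ => LinearMap.range (Algebra.linearMap R K))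

/-- The completed lattice `M_v`: the span of the image of `M` in `K_v^n` over the completion
`R_v`. -/
noncomputable def localLat {R : Type*} [CommRing R] [IsDedekindDomain R] {K : Type*} [Field K]
    [Algebra R K] [IsFractionRing R K] {n : ℕ} (v : HeightOneSpectrum R)
    (M : Submodule R (Fin n → K)) :
    Submodule (v.adicCompletionIntegers K) (Fin n → v.adicCompletion K) :=
  Submodule.span (v.adicCompletionIntegers K)
    ((fun (x : Fin n → K) (i : Fin n) => algebraMap K (v.adicCompletion K) (x i)) '' (M : Set _))

/-- Two `B`-submodules of `A^n` are isometric: a `B`-linear isomorphism preserves `q`. -/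
def Isometric {R : Type*} [CommRing R] {n : ℕ} (a : Fin n → Fin n → R) {A : Type*} [CommRing A]
    [Algebra R A] {B : Type*} [CommRing B] [Module B A] (M N : Submodule B (Fin n → A)) : Prop :=
  ∃ e : M ≃ₗ[B] N, ∀ x : M, qf a (e x : Fin n → A) = qf a (x : Fin n → A)

/-- `M` lies in the genus of `R^n`: it is a lattice in `K^n` (finitely generated and spanning)
that is isometric to `R^n` over the completion at every nonzero prime of `R`. -/
def InGenus {R : Type*} [CommRing R] [IsDedekindDomain R] {K : Type*} [Field K]
    [Algebra R K] [IsFractionRing R K] {n : ℕ} (a : Fin n → Fin n → R)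
    (M : Submodule R (Fin n → K)) : Prop :=
  M.FG ∧ Submodule.span K (M : Set (Fin n → K)) = ⊤ ∧
    ∀ v : HeightOneSpectrum R, Isometric a (localLat v M) (localLat v (stdLat R K n))

/-- Class number one: every lattice in the genus of `R^n` is isometric to `R^n`. -/
def ClassNumberOne {R : Type*} [CommRing R] [IsDedekindDomain R] (K : Type*) [Field K]
    [Algebra R K] [IsFractionRing R K] {n : ℕ} (a : Fin n → Fin n → R) : Prop :=
  ∀ M : Submodule R (Fin n → K), InGenus a M → Isometric a M (stdLat R K n)

end Pool.Agent.H719Z.Euc
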