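import Mathlib
import Pool.Agent.H719Z.Euc.Defs

set_option autoImplicit false

namespace Pool.Agent.H719Z.Euc
open QuadraticMap

variable {R : Type*} [CommRing R] [IsDomain R] [Ring.HasFiniteQuotients R]
  {K : Type*} [Field K] [Algebra R K] [IsFractionRing R K]
  {V : Type*} [AddCommGroup V] [Module K V] [Module R V] [IsScalarTower R K V]

/-- multiples of a vector -/
def mults (R : Type*) [CommRing R] {V : Type*} [AddCommGroup V] [Module R V] (w : V) : R →+ V :=
  AddMonoidHom.mk' (fun r => r • w) (fun r s => add_smul r s w)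

omit [IsDomain R] in
theorem ideal_index_ne_zero (I : Ideal R) (hI : I ≠ ⊥) : I.toAddSubgroup.index ≠ 0 := by
  have := Ring.HasFiniteQuotients.finiteQuotient hI
  have h : I.toAddSubgroup.index = Nat.card (R ⧸ I) := rfl
  rw [h]
  exact Nat.card_pos.ne'

omit [IsDomain R] [Ring.HasFiniteQuotients R] in
theorem absN_eq (a : R) (ha : a ≠ 0) : (AddMonoidHom.mulLeft a).range.index = absN a := by
  unfold absN
  rw [if_neg ha]
  have h : (AddMonoidHom.mulLeft a).range = (Ideal.span {a}).toAddSubgroup := by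
    ext x
    simp only [AddMonoidHom.mem_range, AddMonoidHom.coe_mulLeft, Submodule.mem_toAddSubgroup,
      Ideal.mem_span_singleton']
    exact ⟨fun ⟨y, hy⟩ => ⟨y, by rw [mul_comm]; exact hy⟩,
      fun ⟨y, hy⟩ => ⟨y, by rw [mul_comm]; exact hy⟩⟩
  rw [h]
  rfl

omit [IsDomain R] in
theorem absN_ne_zero (a : R) (ha : a ≠ 0) : absN a ≠ 0 := by
  unfold absN
  rw [if_neg ha]
  have := Ring.HasFiniteQuotients.finiteQuotient (I := Ideal.span {a}) (by simpa using ha)
  exact Nat.card_pos.ne'

omit [IsDomain R] in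
theorem relIndex_fg (L M : Submodule R V) (hM : M.FG) (h : ∀ x : V, ∃ t : R, t ≠ 0 ∧ t • x ∈ L) :
    L.toAddSubgroup.relIndex M.toAddSubgroup ≠ 0 := by
  refine Submodule.fg_induction
    (motive := fun M _ => L.toAddSubgroup.relIndex M.toAddSubgroup ≠ 0) ?_ ?_ M hM
  · intro x
    have e : (Submodule.span R {x}).toAddSubgroup = (mults R x).range := by
      ext y
      simp only [Submodule.mem_toAddSubgroup, Submodule.mem_span_singleton,
        AddMonoidHom.mem_range]
      rfl
    rw [e, ← AddSubgroup.index_comap]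
    obtain ⟨t, ht, htx⟩ := h x
    apply ideal_index_ne_zero (L.comap (LinearMap.toSpanSingleton R V x))
    intro hb
    have : t ∈ L.comap (LinearMap.toSpanSingleton R V x) := htx
    rw [hb] at this
    exact ht this
  · intro A B _ _ hA hB
    rw [Submodule.sup_toAddSubgroup]
    set LA := L.toAddSubgroup
    have h1 : LA.relIndex (LA ⊔ A.toAddSubgroup) ≠ 0 := by
      rwa [AddSubgroup.relIndex_sup_left]
    have h2 : (LA ⊔ A.toAddSubgroup).relIndex ((LA ⊔ A.toAddSubgroup) ⊔ B.toAddSubgroup) ≠ 0 := by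
      rw [AddSubgroup.relIndex_sup_left]
      exact fun h0 => hB (AddSubgroup.relIndex_eq_zero_of_le_left le_sup_left h0)
    have h3 := AddSubgroup.relIndex_ne_zero_trans h1 h2
    exact fun h0 => h3 (AddSubgroup.relIndex_eq_zero_of_le_right
      (sup_le_sup_right le_sup_right _) h0)

/-- reflection in a vector -/
noncomputable def refl (Q : QuadraticForm K V) (u : V) : V →ₗ[K] V :=
  LinearMap.id - (Q.polarBilin u).smulRight ((Q u)⁻¹ • u)

theorem refl_apply (Q : QuadraticForm K V) (u x : V) :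
    refl Q u x = x - polar Q u x • (Q u)⁻¹ • u := rfl

theorem refl_invol (Q : QuadraticForm K V) (u : V) (hu : Q u ≠ 0) :
    Function.Involutive (refl Q u) := by
  intro x
  rw [refl_apply, refl_apply, polar_sub_right, polar_smul_right, polar_smul_right, polar_self,
    sub_sub, ← add_smul]
  have : polar Q u x + (polar Q u x - polar Q u x • (Q u)⁻¹ • (2 : ℕ) • Q u) = 0 := by
    simp only [smul_eq_mul, nsmul_eq_mul]
    field_simp
    push_cast
    ring
  rw [this, zero_smul, sub_zero]

theorem refl_Q (Q : QuadraticForm K V) (u : V) (hu : Q u ≠ 0) (x : V) : Q (refl Q u x) = Q x := by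
  rw [refl_apply, sub_eq_add_neg, QuadraticMap.map_add Q, QuadraticMap.map_neg,
    QuadraticMap.map_smul, QuadraticMap.map_smul, polar_neg_right, polar_smul_right,
    polar_smul_right, polar_comm Q x u]
  simp only [smul_eq_mul]
  field_simp
  ring

omit [IsDomain R] [Ring.HasFiniteQuotients R] [IsFractionRing R K] [IsScalarTower R K V] in
theorem polar_int (Q : QuadraticForm K V) {N : Submodule R V}
    (hN : ∀ x ∈ N, Q x ∈ (algebraMap R K).range) {x y : V} (hx : x ∈ N) (hy : y ∈ N) :
    polar Q x y ∈ (algebraMap R K).range :=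
  sub_mem (sub_mem (hN _ (add_mem hx hy)) (hN _ hx)) (hN _ hy)

theorem step (Q : QuadraticForm K V) (han : ∀ x, x ≠ 0 → Q x ≠ 0) (L : Submodule R V)
    (hL : ∀ x ∈ L, Q x ∈ (algebraMap R K).range)
    (heuc : ∀ x, ∃ y ∈ L, NormLtOne R (Q (x - y))) (M : Submodule R V)
    (hM : ∀ x ∈ M, Q x ∈ (algebraMap R K).range)
    (hfin : L.toAddSubgroup.relIndex M.toAddSubgroup ≠ 0) (hne : ¬ M ≤ L) :
    ∃ τ : V ≃ₗ[K] V, (∀ x, Q (τ x) = Q x) ∧
      (L.toAddSubgroup.comap (τ : V →+ V)).relIndex M.toAddSubgroup ≠ 0 ∧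
      (L.toAddSubgroup.comap (τ : V →+ V)).relIndex M.toAddSubgroup <
        L.toAddSubgroup.relIndex M.toAddSubgroup := by
  obtain ⟨x, hxM, hxL⟩ := Set.not_subset.1 hne
  obtain ⟨y, hy, a, b, hb, hab, hlt⟩ := heuc x
  have hinj : Function.Injective (algebraMap R K) := IsFractionRing.injective R K
  set u := x - y with hu
  have hu0 : u ≠ 0 := fun h => hxL (by rw [sub_eq_zero.1 h]; exact hy)
  have hc : Q u ≠ 0 := han u hu0
  have hb' : algebraMap R K b ≠ 0 := fun h => hb (hinj (by rw [h, map_zero]))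
  have ha : a ≠ 0 := by
    rintro rfl
    simp [hc] at hab
  set z : V := (Q u)⁻¹ • u with hz
  have hQu : Q u = Q x + Q y - polar Q x y := by
    rw [hu, sub_eq_add_neg, QuadraticMap.map_add Q, QuadraticMap.map_neg, polar_neg_right]
    ring
  set τ : V ≃ₗ[K] V := LinearEquiv.ofInvolutive (refl Q u) (refl_invol Q u hc) with hτ
  have hτa : ∀ w, τ w = w - polar Q u w • z := fun w => rfl
  set LA := L.toAddSubgroup with hLA
  set MA := M.toAddSubgroup with hMA
  set M1 : AddSubgroup V := (LA ⊓ MA) ⊔ (mults R x).range with hM1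
  have hxr : (mults R x).range ≤ MA := by
    rintro _ ⟨r, rfl⟩
    exact M.smul_mem r hxM
  have hM1le : M1 ≤ MA := sup_le inf_le_right hxr
  set A : AddSubgroup R := LA.comap (mults R x) with hA
  have e1 : LA.relIndex MA = A.index * M1.relIndex MA := by
    rw [← AddSubgroup.inf_relIndex_right LA MA,
      ← AddSubgroup.relIndex_mul_relIndex (LA ⊓ MA) M1 MA le_sup_left hM1le, hM1,
      AddSubgroup.relIndex_sup_left, hA, AddSubgroup.index_comap,
      ← AddSubgroup.inf_relIndex_right (LA ⊓ MA), inf_assoc, inf_eq_right.2 hxr,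
      AddSubgroup.inf_relIndex_right]
  have hA0 : A.index ≠ 0 := fun h => hfin (by rw [e1, h, zero_mul])
  have hM10 : M1.relIndex MA ≠ 0 := fun h => hfin (by rw [e1, h, mul_zero])
  set A' : AddSubgroup R := (A.map (AddMonoidHom.mulLeft a)).comap (AddMonoidHom.mulLeft b)
    with hA'
  have hsm : ∀ (r : R) (w : V), r • w = algebraMap R K r • w := fun r w =>
    (algebraMap_smul K r w).symm
  have e2 : A'.map (AddMonoidHom.mulLeft b) = A.map (AddMonoidHom.mulLeft a) := by
    apply AddSubgroup.map_comap_eq_self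
    rintro _ ⟨t, ht, rfl⟩
    have ht' : t • x ∈ L := ht
    have h1 : algebraMap R K t * Q u ∈ (algebraMap R K).range := by
      rw [hQu, mul_sub, mul_add]
      refine sub_mem (add_mem (mul_mem ⟨t, rfl⟩ (hM x hxM)) (mul_mem ⟨t, rfl⟩ (hL y hy))) ?_
      have h2 := polar_int Q hL ht' hy
      rwa [hsm, polar_smul_left, smul_eq_mul] at h2
    obtain ⟨s, hs⟩ := h1
    refine ⟨s, hinj ?_⟩
    simp only [AddMonoidHom.coe_mulLeft, map_mul]
    rw [hs, hab]
    field_simp
  have e3 : A'.index * absN b = A.index * absN a := by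
    rw [← absN_eq a ha, ← absN_eq b hb,
      ← AddSubgroup.index_map_of_injective A' (mul_right_injective₀ hb),
      ← AddSubgroup.index_map_of_injective A (mul_right_injective₀ ha), e2]
  have hA'0 : A'.index ≠ 0 := by
    intro h
    rw [h, zero_mul] at e3
    exact mul_ne_zero hA0 (absN_ne_zero a ha) e3.symm
  have hA'lt : A'.index < A.index := by
    by_contra h
    push Not at h
    have h1 : A.index * absN a < A.index * absN b :=
      Nat.mul_lt_mul_of_pos_left hlt (Nat.pos_of_ne_zero hA0)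
    have h2 : A.index * absN b ≤ A'.index * absN b := Nat.mul_le_mul_right _ h
    omega
  have hle : A' ≤ LA.comap (mults R z) := by
    rintro s ⟨t, ht, hts⟩
    have ht' : t • x ∈ L := ht
    have h1 : a * t = b * s := hts
    have h2 : s • z = t • x - t • y := by
      rw [← smul_sub, ← hu, hsm s, hsm t, hz, smul_smul]
      congr 1
      have h3 := congrArg (algebraMap R K) h1
      rw [map_mul, map_mul] at h3
      have ha' : algebraMap R K a ≠ 0 := fun h => ha (hinj (by rw [h, map_zero]))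
      rw [hab]
      field_simp
      linear_combination -h3
    show s • z ∈ L
    rw [h2]
    exact sub_mem ht' (L.smul_mem t hy)
  have hZ : LA.relIndex (LA ⊔ (mults R z).range) = (LA.comap (mults R z)).index := by
    rw [AddSubgroup.relIndex_sup_left, AddSubgroup.index_comap]
  have hZ0 : (LA.comap (mults R z)).index ≠ 0 := fun h =>
    hA'0 (Nat.eq_zero_of_zero_dvd (h ▸ AddSubgroup.index_dvd_of_le hle))
  have hZle : (LA.comap (mults R z)).index ≤ A'.index :=
    Nat.le_of_dvd (Nat.pos_of_ne_zero hA'0) (AddSubgroup.index_dvd_of_le hle)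
  have hmem : ∀ (w : V) (k : K), w ∈ L → k ∈ (algebraMap R K).range →
      w + k • z ∈ LA ⊔ (mults R z).range := by
    rintro w _ hw ⟨r, rfl⟩
    exact add_mem (AddSubgroup.mem_sup_left hw)
      (AddSubgroup.mem_sup_right ⟨r, hsm r z⟩)
  have hmap : M1.map (τ : V →+ V) ≤ LA ⊔ (mults R z).range := by
    rw [AddSubgroup.map_le_iff_le_comap, hM1]
    apply sup_le
    · rintro m ⟨hmL, hmM⟩
      show τ m ∈ LA ⊔ (mults R z).range
      rw [hτa, sub_eq_add_neg, ← neg_smul]
      apply hmem _ _ hmL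
      rw [hu, polar_sub_left]
      exact neg_mem (sub_mem (polar_int Q hM hxM hmM) (polar_int Q hL hy hmL))
    · rintro _ ⟨r, rfl⟩
      show τ (r • x) ∈ LA ⊔ (mults R z).range
      have h1 : τ x = y + (Q y - Q x) • z := by
        have h2 : x = y + Q u • z := by
          rw [hz, smul_smul, mul_inv_cancel₀ hc, one_smul, hu]
          abel
        have h3 : Q y - Q x = Q u - polar Q u x := by
          rw [hQu, hu, polar_sub_left, polar_self, polar_comm Q y x]
          simp only [nsmul_eq_mul]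
          push_cast
          ring
        rw [hτa, h3, sub_smul, ← add_sub_assoc, ← h2]
      rw [hsm, map_smul, h1, smul_add, smul_smul, ← hsm]
      exact hmem _ _ (L.smul_mem r hy) (mul_mem ⟨r, rfl⟩ (sub_mem (hL y hy) (hM x hxM)))
  set L' : AddSubgroup V := LA.comap (τ : V →+ V) with hL'
  have h1 : L'.relIndex M1 ≤ (LA.comap (mults R z)).index := by
    rw [hL', AddSubgroup.relIndex_comap, ← hZ]
    exact AddSubgroup.relIndex_le_of_le_right hmap (by rw [hZ]; exact hZ0)
  have h2 : L'.relIndex M1 ≠ 0 := by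
    rw [hL', AddSubgroup.relIndex_comap]
    exact fun h => hZ0 (by rw [← hZ]; exact AddSubgroup.relIndex_eq_zero_of_le_right hmap h)
  have h3 : (L' ⊓ M1).relIndex MA = L'.relIndex M1 * M1.relIndex MA := by
    rw [← AddSubgroup.relIndex_inf_mul_relIndex, inf_eq_left.2 hM1le]
  have h4 : (L' ⊓ M1).relIndex MA ≠ 0 := by
    rw [h3]
    exact mul_ne_zero h2 hM10
  refine ⟨τ, refl_Q Q u hc, AddSubgroup.relIndex_ne_zero_trans h2 hM10, ?_⟩
  calc L'.relIndex MA ≤ (L' ⊓ M1).relIndex MA :=
        AddSubgroup.relIndex_le_of_le_left inf_le_left h4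
    _ = L'.relIndex M1 * M1.relIndex MA := h3
    _ < A.index * M1.relIndex MA :=
        Nat.mul_lt_mul_of_pos_right (by omega) (Nat.pos_of_ne_zero hM10)
    _ = LA.relIndex MA := e1.symm

/-- every integral lattice embeds isometrically in a Euclidean lattice -/
theorem descent (Q : QuadraticForm K V) (han : ∀ x, x ≠ 0 → Q x ≠ 0) (L : Submodule R V)
    (hL : ∀ x ∈ L, Q x ∈ (algebraMap R K).range)
    (heuc : ∀ x, ∃ y ∈ L, NormLtOne R (Q (x - y))) (k : ℕ) : ∀ (M : Submodule R V),
    (∀ x ∈ M, Q x ∈ (algebraMap R K).range) →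
    L.toAddSubgroup.relIndex M.toAddSubgroup ≠ 0 →
    L.toAddSubgroup.relIndex M.toAddSubgroup ≤ k →
    ∃ σ : V ≃ₗ[K] V, (∀ x, Q (σ x) = Q x) ∧ ∀ x ∈ M, σ x ∈ L := by
  induction k with
  | zero => intro M _ h1 h2; omega
  | succ k ih =>
    intro M hM h1 h2
    by_cases hle : M ≤ L
    · exact ⟨LinearEquiv.refl K V, fun _ => rfl, fun x hx => hle hx⟩
    obtain ⟨τ, hτ, h3, h4⟩ := step Q han L hL heuc M hM h1 hle
    have e : (M.map (τ.restrictScalars R).toLinearMap).toAddSubgroup =
        M.toAddSubgroup.map (τ : V →+ V) := rfl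
    rw [AddSubgroup.relIndex_comap, ← e] at h3 h4
    obtain ⟨σ, hσ, h5⟩ := ih (M.map (τ.restrictScalars R).toLinearMap) (by
      rintro _ ⟨x, hx, rfl⟩
      show Q (τ x) ∈ _
      rw [hτ]
      exact hM x hx) h3 (by omega)
    exact ⟨τ.trans σ, fun x => by rw [LinearEquiv.trans_apply, hσ, hτ],
      fun x hx => h5 _ ⟨x, hx, rfl⟩⟩

omit [IsDomain R] in
/-- a Euclidean lattice is maximal -/
theorem maximal (Q : QuadraticForm K V) (han : ∀ x, x ≠ 0 → Q x ≠ 0) (L : Submodule R V)
    (hL : ∀ x ∈ L, Q x ∈ (algebraMap R K).range)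
    (heuc : ∀ x, ∃ y ∈ L, NormLtOne R (Q (x - y))) [IsDomain R] (x : V)
    (hx : Q x ∈ (algebraMap R K).range) (hb : ∀ y ∈ L, polar Q x y ∈ (algebraMap R K).range) :
    x ∈ L := by
  obtain ⟨y, hy, a, b, hb0, hab, hlt⟩ := heuc x
  have hinj : Function.Injective (algebraMap R K) := IsFractionRing.injective R K
  have hQu : Q (x - y) = Q x + Q y - polar Q x y := by
    rw [sub_eq_add_neg, QuadraticMap.map_add Q, QuadraticMap.map_neg, polar_neg_right]
    ring
  obtain ⟨c, hc⟩ : Q (x - y) ∈ (algebraMap R K).range := by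
    rw [hQu]
    exact sub_mem (add_mem hx (hL y hy)) (hb y hy)
  have hb' : algebraMap R K b ≠ 0 := fun h => hb0 (hinj (by rw [h, map_zero]))
  have hac : a = b * c := by
    apply hinj
    rw [map_mul, hc, hab]
    field_simp
  by_contra hxL
  have hu0 : x - y ≠ 0 := fun h => hxL (by rw [sub_eq_zero.1 h]; exact hy)
  have ha : a ≠ 0 := by
    rintro rfl
    apply han _ hu0
    rw [hab]
    simp
  have h1 : (AddMonoidHom.mulLeft a).range ≤ (AddMonoidHom.mulLeft b).range := by
    rintro _ ⟨t, rfl⟩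
    exact ⟨c * t, by simp [hac, mul_assoc]⟩
  have h2 := AddSubgroup.index_dvd_of_le h1
  rw [absN_eq a ha, absN_eq b hb0] at h2
  have := Nat.le_of_dvd (Nat.pos_of_ne_zero (absN_ne_zero a ha)) h2
  omega

end Pool.Agent.H719Z.Euc
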