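import Mathlib
import Pool.Agent.H719Z.Euc.Descent

set_option autoImplicit false
set_option linter.unusedSectionVars false


namespace Pool.Agent.H719Z.Euc
open QuadraticMap IsDedekindDomain IsDedekindDomain.HeightOneSpectrum

section Qf
variable {R : Type*} [CommRing R] {n : ℕ} (a : Fin n → Fin n → R)

/-- the form as a bundled quadratic form -/
noncomputable def Qf (A : Type*) [CommRing A] [Algebra R A] : QuadraticForm A (Fin n → A) :=
  ∑ i, ∑ j, algebraMap R A (a i j) • QuadraticMap.proj i j

theorem Qf_apply {A : Type*} [CommRing A] [Algebra R A] (x : Fin n → A) : Qf a A x = qf a x := by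
  simp [Qf, qf, mul_assoc, Algebra.smul_def]

theorem Qf_map {A B : Type*} [CommRing A] [Algebra R A] [CommRing B] [Algebra R B] [Algebra A B]
    [IsScalarTower R A B] (x : Fin n → A) :
    Qf a B (fun i => algebraMap A B (x i)) = algebraMap A B (Qf a A x) := by
  simp only [Qf_apply, qf, map_sum, map_mul, ← IsScalarTower.algebraMap_apply]

theorem polar_map {A B : Type*} [CommRing A] [Algebra R A] [CommRing B] [Algebra R B] [Algebra A B]
    [IsScalarTower R A B] (x y : Fin n → A) :
    polar (Qf a B) (fun i => algebraMap A B (x i)) (fun i => algebraMap A B (y i)) =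
      algebraMap A B (polar (Qf a A) x y) := by
  unfold polar
  rw [map_sub, map_sub, ← Qf_map, ← Qf_map, ← Qf_map]
  congr 3
  ext i
  simp

theorem Qf_mem {A : Type*} [CommRing A] [Algebra R A] (S : Subring A)
    (hS : ∀ r, algebraMap R A r ∈ S) (x : Fin n → A) (hx : ∀ i, x i ∈ S) : Qf a A x ∈ S := by
  rw [Qf_apply]
  exact sum_mem fun i _ => sum_mem fun j _ => mul_mem (mul_mem (hS _) (hx i)) (hx j)

theorem polar_mem {A : Type*} [CommRing A] [Algebra R A] (S : Subring A)
    (hS : ∀ r, algebraMap R A r ∈ S) (x y : Fin n → A) (hx : ∀ i, x i ∈ S) (hy : ∀ i, y i ∈ S) :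
    polar (Qf a A) x y ∈ S :=
  sub_mem (sub_mem (Qf_mem a S hS _ fun i => add_mem (hx i) (hy i)) (Qf_mem a S hS _ hx))
    (Qf_mem a S hS _ hy)

end Qf

variable {R : Type*} [CommRing R] [IsDedekindDomain R]
  {K : Type*} [Field K] [Algebra R K] [IsFractionRing R K] {n : ℕ}

theorem mem_stdLat {x : Fin n → K} : x ∈ stdLat R K n ↔ ∀ i, x i ∈ (algebraMap R K).range := by
  simp [stdLat, Submodule.mem_pi]

theorem memO (v : HeightOneSpectrum R) (k : K) :
    algebraMap K (v.adicCompletion K) k ∈ v.adicCompletionIntegers K ↔ v.valuation K k ≤ 1 := by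
  rw [mem_adicCompletionIntegers, ← valuedAdicCompletion_eq_valuation' v k]
  rfl

theorem memO' (v : HeightOneSpectrum R) (r : R) :
    algebraMap R (v.adicCompletion K) r ∈ v.adicCompletionIntegers K := by
  rw [IsScalarTower.algebraMap_apply R K, memO]
  exact valuation_le_one v r

theorem algF_ne_zero (v : HeightOneSpectrum R) {d : R} (hd : d ≠ 0) :
    algebraMap R (v.adicCompletion K) d ≠ 0 := by
  rw [IsScalarTower.algebraMap_apply R K, map_ne_zero]
  exact fun h => hd (IsFractionRing.injective R K (by rw [h, map_zero]))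

theorem approxK (v : HeightOneSpectrum R) (x d : v.adicCompletion K) (hd : d ≠ 0) :
    ∃ (k : K) (o : v.adicCompletion K), o ∈ v.adicCompletionIntegers K ∧
      x = algebraMap K _ k + d * o := by
  have hc : Continuous (fun y : v.adicCompletion K => (x - y) * d⁻¹) :=
    (continuous_const.sub continuous_id).mul continuous_const
  have h0 : IsOpen (v.adicCompletionIntegers K : Set (v.adicCompletion K)) :=
    Valued.isOpen_valuationSubring (v.adicCompletion K)
  have ho := h0.preimage hc
  obtain ⟨k, hk⟩ := (denseRange_algebraMap K v).exists_mem_open ho ⟨x, by simp⟩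
  exact ⟨k, _, hk, by field_simp; ring⟩

theorem approxR (v : HeightOneSpectrum R) (c : v.adicCompletion K)
    (hc : c ∈ v.adicCompletionIntegers K) (d : R) (hd : d ≠ 0) :
    ∃ (r : R) (o : v.adicCompletion K), o ∈ v.adicCompletionIntegers K ∧
      c = algebraMap R _ r + algebraMap R _ d * o := by
  obtain ⟨k, o, ho, hk⟩ := approxK v c _ (algF_ne_zero (K := K) v hd)
  have hd' : algebraMap R K d ≠ 0 :=
    fun h => hd (IsFractionRing.injective R K (by rw [h, map_zero]))
  have h1 : v.valuation K k ≤ 1 := by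
    rw [← memO, ← sub_eq_iff_eq_add.2 hk]
    exact sub_mem hc (mul_mem (memO' v d) ho)
  have hv : v.valuation K (algebraMap R K d) ≠ 0 := by
    rwa [Valuation.ne_zero_iff]
  obtain ⟨r, hr⟩ := exists_valuation_sub_lt_of_integer v h1 (Units.mk0 _ hv)
  have h2 : v.valuation K ((algebraMap R K r - k) / algebraMap R K d) ≤ 1 := by
    rw [map_div₀]
    exact div_le_one_of_le₀ hr.le zero_le
  rw [← memO] at h2
  refine ⟨r, _, sub_mem ho h2, ?_⟩
  have h3 := algF_ne_zero (K := K) v hd
  rw [map_div₀, map_sub, ← IsScalarTower.algebraMap_apply, ← IsScalarTower.algebraMap_apply, hk]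
  field_simp
  ring

theorem exists_notMem_mul (v : HeightOneSpectrum R) {ι : Type*} [Fintype ι] (k : ι → K)
    (hk : ∀ i, v.valuation K (k i) ≤ 1) :
    ∃ s : R, s ∉ v.asIdeal ∧ ∀ i, algebraMap R K s * k i ∈ (algebraMap R K).range := by
  classical
  choose b d hbd using fun i => exists_primeCompl_mul_eq_of_integer v (k i) (hk i)
  refine ⟨∏ i, (d i : R), (prod_mem fun i _ => (d i).2 : _ ∈ v.asIdeal.primeCompl), fun i => ?_⟩
  rw [← Finset.prod_erase_mul _ _ (Finset.mem_univ i), map_mul, mul_assoc, mul_comm _ (k i), hbd]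
  exact mul_mem ⟨_, rfl⟩ ⟨_, rfl⟩

theorem exists_mul_int {ι : Type*} [Fintype ι] (k : ι → K) :
    ∃ t : R, t ≠ 0 ∧ ∀ i, algebraMap R K t * k i ∈ (algebraMap R K).range := by
  obtain ⟨b, hb⟩ := IsLocalization.exist_integer_multiples_of_finite (nonZeroDivisors R) k
  refine ⟨b, nonZeroDivisors.ne_zero b.2, fun i => ?_⟩
  obtain ⟨c, hc⟩ := hb i
  exact ⟨c, by rw [hc, Algebra.smul_def]⟩

end Pool.Agent.H719Z.Euc
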