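import Mathlib
import Pool.Agent.H719Z.Euc.Local

set_option autoImplicit false
set_option linter.unusedSectionVars false


namespace Pool.Agent.H719Z.Euc
open QuadraticMap

variable {R : Type*} [CommRing R] [IsDedekindDomain R]
  {K : Type*} [Field K] [Algebra R K] [IsFractionRing R K] {n : ℕ}
  {F : Type*} [Field F] [Algebra K F] [Algebra R F] [IsScalarTower R K F]

/-- what is used of a completion -/
structure Loc (K : Type*) [Field K] [Algebra R K] [Algebra K F] (O : ValuationSubring F)
    (P : Ideal R) : Prop where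
  mem : ∀ r : R, algebraMap R F r ∈ O
  apK : ∀ x : F, ∃ (k : K) (o : F), o ∈ O ∧ x = algebraMap K F k + o
  apR : ∀ c ∈ O, ∀ d : R, d ≠ 0 → ∃ (r : R) (o : F), o ∈ O ∧
    c = algebraMap R F r + algebraMap R F d * o
  den : ∀ {ι : Type} [Fintype ι] (k : ι → K), (∀ i, algebraMap K F (k i) ∈ O) →
    ∃ s : R, s ∉ P ∧ ∀ i, algebraMap R K s * k i ∈ (algebraMap R K).range
  unit : ∀ s : R, s ∉ P → ∀ k : K, algebraMap R K s * k ∈ (algebraMap R K).range →
    algebraMap K F k ∈ O

/-- coordinatewise embedding -/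
def emb (F : Type*) [Field F] [Algebra K F] (x : Fin n → K) : Fin n → F :=
  fun i => algebraMap K F (x i)

/-- the local lattice -/
def lat (O : ValuationSubring F) (M : Submodule R (Fin n → K)) : Submodule O (Fin n → F) :=
  Submodule.span O (emb F '' (M : Set (Fin n → K)))

include K in
theorem algF_ne {d : R} (hd : d ≠ 0) : algebraMap R F d ≠ 0 := by
  rw [IsScalarTower.algebraMap_apply R K, map_ne_zero]
  exact fun h => hd (IsFractionRing.injective R K (by rw [h, map_zero]))

variable {O : ValuationSubring F} {P : Ideal R}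

theorem Loc.memK (H : Loc K O P) {k : K} (hk : k ∈ (algebraMap R K).range) :
    algebraMap K F k ∈ O := by
  obtain ⟨b, rfl⟩ := hk
  rw [← IsScalarTower.algebraMap_apply]
  exact H.mem b

theorem osmul (c : O) (x : Fin n → F) : c • x = (c : F) • x := rfl

theorem local_approx (H : Loc K O P) (M : Submodule R (Fin n → K))
    (x : Fin n → F) (hx : x ∈ lat O M) (d : R) (hd : d ≠ 0) :
    ∃ m ∈ M, ∃ u : Fin n → F, (∀ j, u j ∈ O) ∧
      ∀ j, x j = algebraMap K F (m j) + algebraMap R F d * u j := by
  unfold lat at hx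
  induction hx using Submodule.span_induction with
  | mem x hx =>
    obtain ⟨m, hm, rfl⟩ := hx
    exact ⟨m, hm, 0, fun _ => zero_mem _, fun j => by simp [emb]⟩
  | zero => exact ⟨0, zero_mem _, 0, fun _ => zero_mem _, fun j => by simp⟩
  | add x y _ _ hx hy =>
    obtain ⟨m, hm, u, hu, h1⟩ := hx
    obtain ⟨m', hm', u', hu', h2⟩ := hy
    refine ⟨m + m', add_mem hm hm', u + u', fun j => add_mem (hu j) (hu' j), fun j => ?_⟩
    simp only [Pi.add_apply, h1, h2, map_add]
    ring
  | smul c x _ hx =>
    obtain ⟨m, hm, u, hu, h1⟩ := hx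
    obtain ⟨t, ht, h2⟩ := exists_mul_int (R := R) m
    obtain ⟨r, o, ho, h3⟩ := H.apR c c.2 (d * t) (mul_ne_zero hd ht)
    refine ⟨r • m, M.smul_mem r hm,
      fun j => o * algebraMap K F (algebraMap R K t * m j) + (c : F) * u j,
      fun j => add_mem (mul_mem ho (H.memK (h2 j))) (mul_mem c.2 (hu j)), fun j => ?_⟩
    beta_reduce
    rw [osmul, Pi.smul_apply, smul_eq_mul, h1 j, Pi.smul_apply, Algebra.smul_def, map_mul, map_mul,
      ← IsScalarTower.algebraMap_apply, ← IsScalarTower.algebraMap_apply]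
    rw [map_mul] at h3
    linear_combination (algebraMap K F (m j)) * h3

theorem single_mem_std (j : Fin n) : (Pi.single j 1 : Fin n → K) ∈ stdLat R K n := by
  refine mem_stdLat.2 fun i => ?_
  by_cases h : i = j
  · subst h
    simp
  · simp [Pi.single_eq_of_ne h]

theorem mem_lat_std (H : Loc K O P) (x : Fin n → F) :
    x ∈ lat O (stdLat R K n) ↔ ∀ j, x j ∈ O := by
  constructor
  · intro hx j
    obtain ⟨m, hm, u, hu, h⟩ := local_approx H _ x hx 1 one_ne_zero
    rw [h j]
    exact add_mem (H.memK (mem_stdLat.1 hm j)) (mul_mem (H.mem 1) (hu j))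
  · intro hx
    have e : x = ∑ j, (⟨x j, hx j⟩ : O) • emb F (Pi.single j 1 : Fin n → K) := by
      ext i
      rw [Finset.sum_apply, Finset.sum_eq_single i]
      · rw [osmul]
        simp [emb]
      · intro j _ hj
        simp [emb, Pi.single_eq_of_ne' hj]
      · simp
    rw [e]
    exact sum_mem fun j _ =>
      Submodule.smul_mem _ _ (Submodule.subset_span ⟨_, single_mem_std j, rfl⟩)

theorem polar_std (a : Fin n → Fin n → R) (x : Fin n → K)
    (h : ∀ j, polar (Qf a K) x (Pi.single j 1) ∈ (algebraMap R K).range) (y : Fin n → K)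
    (hy : y ∈ stdLat R K n) : polar (Qf a K) x y ∈ (algebraMap R K).range := by
  have e : y = ∑ j, y j • (Pi.single j 1 : Fin n → K) := by
    ext i
    simp [Finset.sum_apply, Pi.single_apply]
  rw [e, ← polarBilin_apply_apply, map_sum]
  refine sum_mem fun j _ => ?_
  rw [map_smul, smul_eq_mul, polarBilin_apply_apply]
  exact mul_mem (mem_stdLat.1 hy j) (h j)

theorem local_max (H : Loc K O P) (a : Fin n → Fin n → R)
    (hmax : ∀ x : Fin n → K, Qf a K x ∈ (algebraMap R K).range →
      (∀ y ∈ stdLat R K n, polar (Qf a K) x y ∈ (algebraMap R K).range) → x ∈ stdLat R K n)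
    (x : Fin n → F) (hx : Qf a F x ∈ O)
    (hb : ∀ y : Fin n → F, (∀ j, y j ∈ O) → polar (Qf a F) x y ∈ O) : ∀ j, x j ∈ O := by
  choose k o ho hk using fun j => H.apK (x j)
  have e : emb F k = x - o := by
    ext j
    simp [emb, hk j]
  have h1 : algebraMap K F (Qf a K k) ∈ O := by
    rw [← Qf_map]
    change Qf a F (emb F k) ∈ O
    rw [e, sub_eq_add_neg, QuadraticMap.map_add (Qf a F), QuadraticMap.map_neg, polar_neg_right]
    exact add_mem (add_mem hx (Qf_mem a O.toSubring H.mem o ho)) (neg_mem (hb o ho))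
  have h2 : ∀ j, algebraMap K F (polar (Qf a K) k (Pi.single j 1)) ∈ O := by
    intro j
    rw [← polar_map]
    change polar (Qf a F) (emb F k) (emb F _) ∈ O
    have h3 : ∀ i, emb F (Pi.single j 1 : Fin n → K) i ∈ O := fun i =>
      H.memK (mem_stdLat.1 (single_mem_std j) i)
    rw [e, polar_sub_left]
    exact sub_mem (hb _ h3) (polar_mem a O.toSubring H.mem _ _ ho h3)
  obtain ⟨s, hs, h3⟩ := H.den (ι := Option (Fin n))
    (fun i => i.elim (Qf a K k) fun j => polar (Qf a K) k (Pi.single j 1))
    (fun i => by cases i with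
      | none => exact h1
      | some j => exact h2 j)
  have h4 := hmax (algebraMap R K s • k) (by
    rw [QuadraticMap.map_smul, smul_eq_mul, mul_assoc]
    exact mul_mem ⟨s, rfl⟩ (h3 none)) (polar_std a _ fun j => by
    rw [polar_smul_left, smul_eq_mul]
    exact h3 (some j))
  intro j
  rw [hk j]
  exact add_mem (H.unit s hs _ (mem_stdLat.1 h4 j)) (ho j)

theorem local_int (H : Loc K O P) (a : Fin n → Fin n → R) (M : Submodule R (Fin n → K))
    (hI : Isometric a (lat O M) (lat O (stdLat R K n))) (m : Fin n → K) (hm : m ∈ M) :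
    algebraMap K F (Qf a K m) ∈ O := by
  obtain ⟨e, he⟩ := hI
  have h := he ⟨emb F m, Submodule.subset_span ⟨m, hm, rfl⟩⟩
  rw [← Qf_apply, ← Qf_apply] at h
  rw [← Qf_map]
  change Qf a F (emb F m) ∈ O
  rw [← h]
  exact Qf_mem a O.toSubring H.mem _ ((mem_lat_std H _).1 (e _).2)

theorem local_mem (H : Loc K O P) (a : Fin n → Fin n → R)
    (hmax : ∀ x : Fin n → K, Qf a K x ∈ (algebraMap R K).range →
      (∀ y ∈ stdLat R K n, polar (Qf a K) x y ∈ (algebraMap R K).range) → x ∈ stdLat R K n)
    (M : Submodule R (Fin n → K))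
    (hI : Isometric a (lat O M) (lat O (stdLat R K n))) (l : Fin n → K)
    (hl : Qf a K l ∈ (algebraMap R K).range)
    (hlm : ∀ m ∈ M, polar (Qf a K) l m ∈ (algebraMap R K).range) (t : R) (ht : t ≠ 0)
    (htl : t • l ∈ M) : emb F l ∈ lat O M := by
  obtain ⟨e, he⟩ := hI
  simp only [← Qf_apply] at he
  have hpol : ∀ x y : lat O M, polar (Qf a F) (e x : Fin n → F) (e y : Fin n → F) =
      polar (Qf a F) (x : Fin n → F) (y : Fin n → F) := by
    intro x y
    unfold polar
    rw [← Submodule.coe_add, ← map_add, he, he, he, Submodule.coe_add]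
  have h1 : ∀ y ∈ lat O M, polar (Qf a F) (emb F l) y ∈ O := by
    intro y hy
    unfold lat at hy
    induction hy using Submodule.span_induction with
    | mem y hy =>
      obtain ⟨m, hm, rfl⟩ := hy
      have := polar_map (B := F) a l m
      exact this ▸ H.memK (hlm m hm)
    | zero => simp
    | add x y _ _ hx hy =>
      rw [polar_add_right]
      exact add_mem hx hy
    | smul c x _ hx =>
      rw [osmul, polar_smul_right, smul_eq_mul]
      exact mul_mem c.2 hx
  have ht' : algebraMap R F t ≠ 0 := algF_ne (K := K) ht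
  have e1 : emb F (t • l) = algebraMap R F t • emb F l := by
    ext j
    simp [emb, Algebra.smul_def, ← IsScalarTower.algebraMap_apply]
  set w : lat O M := ⟨emb F (t • l), Submodule.subset_span ⟨_, htl, rfl⟩⟩ with hw
  have hwc : (w : Fin n → F) = algebraMap R F t • emb F l := e1
  have h2 := local_max H a hmax ((algebraMap R F t)⁻¹ • (e w : Fin n → F)) (by
    rw [QuadraticMap.map_smul, he, hwc, QuadraticMap.map_smul, smul_smul]
    have : (algebraMap R F t)⁻¹ * (algebraMap R F t)⁻¹ * (algebraMap R F t * algebraMap R F t)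
        = 1 := by field_simp
    rw [this, one_smul]
    have := Qf_map (B := F) a l
    exact this ▸ H.memK hl) (by
    intro y hy
    obtain ⟨y', hy'⟩ := e.surjective ⟨y, (mem_lat_std H _).2 hy⟩
    have : y = (e y' : Fin n → F) := by rw [hy']
    rw [this, polar_smul_left, hpol, hwc, polar_smul_left, smul_smul, inv_mul_cancel₀ ht',
      one_smul]
    exact h1 _ y'.2)
  obtain ⟨y', hy'⟩ := e.surjective ⟨_, (mem_lat_std H _).2 h2⟩
  have h3 : e ((⟨algebraMap R F t, H.mem t⟩ : O) • y') = e w := by
    rw [map_smul, hy']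
    apply Subtype.ext
    rw [Submodule.coe_smul, osmul, smul_smul, mul_inv_cancel₀ ht', one_smul]
  have h4 := congrArg Subtype.val (e.injective h3)
  rw [Submodule.coe_smul, osmul, hwc] at h4
  have h5 : (y' : Fin n → F) = emb F l := smul_right_injective _ ht' h4
  rw [← h5]
  exact y'.2

theorem local_global (H : Loc K O P) (M : Submodule R (Fin n → K)) (d : R) (hd : d ≠ 0)
    (hdM : ∀ y ∈ stdLat R K n, d • y ∈ M) (l : Fin n → K) (hl : emb F l ∈ lat O M) :
    ∃ s : R, s ∉ P ∧ s • l ∈ M := by
  obtain ⟨m, hm, u, hu, h⟩ := local_approx H M _ hl d hd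
  have hd' : algebraMap R K d ≠ 0 :=
    fun h => hd (IsFractionRing.injective R K (by rw [h, map_zero]))
  have hdF : algebraMap R F d ≠ 0 := algF_ne (K := K) hd
  obtain ⟨s, hs, h2⟩ := H.den (fun j => (l j - m j) / algebraMap R K d) (fun j => by
    have h3 : algebraMap K F (l j) = _ := h j
    rw [map_div₀, map_sub, h3, ← IsScalarTower.algebraMap_apply, add_sub_cancel_left,
      mul_div_cancel_left₀ _ hdF]
    exact hu j)
  refine ⟨s, hs, ?_⟩
  have h3 := hdM _ (mem_stdLat.2 h2)
  have e : s • l = s • m + d • fun j => algebraMap R K s * ((l j - m j) / algebraMap R K d) := by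
    ext j
    simp only [Pi.add_apply, Pi.smul_apply]
    simp only [Algebra.smul_def]
    field_simp
    ring
  rw [e]
  exact add_mem (M.smul_mem s hm) h3

end Pool.Agent.H719Z.Euc
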