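import Mathlib
import Pool.Agent.H719Z.Euc.Gen

set_option autoImplicit false
set_option linter.unusedSectionVars false


namespace Pool.Agent.H719Z.Euc
open QuadraticMap IsDedekindDomain IsDedekindDomain.HeightOneSpectrum

variable {R : Type*} [CommRing R] [IsDedekindDomain R]
  {K : Type*} [Field K] [Algebra R K] [IsFractionRing R K] {n : ℕ}

theorem loc_adic (v : HeightOneSpectrum R) : Loc K (v.adicCompletionIntegers K) v.asIdeal where
  mem := memO' v
  apK x := by
    obtain ⟨k, o, ho, h⟩ := approxK v x 1 one_ne_zero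
    exact ⟨k, o, ho, by rw [h, one_mul]⟩
  apR := approxR v
  den k hk := exists_notMem_mul v k fun i => (memO v _).1 (hk i)
  unit s hs k hk := by
    obtain ⟨b, hb⟩ := hk
    rw [memO]
    have h1 : v.valuation K (algebraMap R K s) = 1 := (valuation_eq_one_iff_notMem v).2 hs
    have h2 : v.valuation K (algebraMap R K b) ≤ 1 := valuation_le_one v b
    rwa [hb, map_mul, h1, one_mul] at h2

theorem exists_smul_mem (M : Submodule R (Fin n → K))
    (hM : Submodule.span K (M : Set (Fin n → K)) = ⊤) (x : Fin n → K) :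
    ∃ t : R, t ≠ 0 ∧ t • x ∈ M := by
  have hx : x ∈ Submodule.span K (M : Set (Fin n → K)) := hM ▸ Submodule.mem_top
  induction hx using Submodule.span_induction with
  | mem x hx => exact ⟨1, one_ne_zero, by rwa [one_smul]⟩
  | zero => exact ⟨1, one_ne_zero, by simp⟩
  | add x y _ _ hx hy =>
    obtain ⟨s, hs, h1⟩ := hx
    obtain ⟨t, ht, h2⟩ := hy
    refine ⟨s * t, mul_ne_zero hs ht, ?_⟩
    rw [smul_add]
    refine add_mem ?_ (by rw [mul_smul]; exact M.smul_mem s h2)
    rw [mul_comm, mul_smul]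
    exact M.smul_mem t h1
  | smul c x _ hx =>
    obtain ⟨s, hs, h1⟩ := hx
    obtain ⟨t, ht, h2⟩ := exists_mul_int (R := R) (fun _ : Unit => c)
    obtain ⟨b, hb⟩ := h2 ()
    refine ⟨s * t, mul_ne_zero hs ht, ?_⟩
    have e : (s * t) • c • x = b • s • x := by
      rw [mul_smul, ← algebraMap_smul K t, smul_smul, ← hb, algebraMap_smul, smul_comm]
    rw [e]
    exact M.smul_mem b h1

theorem exists_smul_std (M : Submodule R (Fin n → K))
    (hM : Submodule.span K (M : Set (Fin n → K)) = ⊤) :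
    ∃ d : R, d ≠ 0 ∧ ∀ y ∈ stdLat R K n, d • y ∈ M := by
  choose t ht h using fun j : Fin n => exists_smul_mem M hM (Pi.single j 1)
  refine ⟨∏ j, t j, Finset.prod_ne_zero_iff.2 fun j _ => ht j, fun y hy => ?_⟩
  have e : y = ∑ j, y j • (Pi.single j 1 : Fin n → K) := by
    ext i
    simp [Finset.sum_apply, Pi.single_apply]
  rw [e, Finset.smul_sum]
  refine sum_mem fun j _ => ?_
  obtain ⟨b, hb⟩ := mem_stdLat.1 hy j
  rw [← hb, algebraMap_smul, smul_comm, ← Finset.prod_erase_mul _ _ (Finset.mem_univ j), mul_smul]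
  exact M.smul_mem _ (M.smul_mem _ (h j))

theorem classNumberOne [Ring.HasFiniteQuotients R] (a : Fin n → Fin n → R)
    (han : Anisotropic K a) (heuc : IsEuclideanForm K a) : ClassNumberOne K a := by
  rintro M ⟨hfg, hspan, hloc⟩
  have hloc' : ∀ v : HeightOneSpectrum R, Isometric a (lat (v.adicCompletionIntegers K) M)
      (lat (v.adicCompletionIntegers K) (stdLat R K n)) := hloc
  have han' : ∀ x, x ≠ 0 → Qf a K x ≠ 0 := fun x hx => by
    rw [Qf_apply]
    exact han x hx
  have hL : ∀ x ∈ stdLat R K n, Qf a K x ∈ (algebraMap R K).range := fun x hx =>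
    Qf_mem a (algebraMap R K).range (fun r => RingHom.mem_range_self _ r) x (mem_stdLat.1 hx)
  have heuc' : ∀ x, ∃ y ∈ stdLat R K n, NormLtOne R (Qf a K (x - y)) := fun x => by
    obtain ⟨y, hy⟩ := heuc x
    exact ⟨_, mem_stdLat.2 fun i => ⟨y i, rfl⟩, by rw [Qf_apply]; exact hy⟩
  have hM : ∀ m ∈ M, Qf a K m ∈ (algebraMap R K).range := fun m hm =>
    mem_integers_of_valuation_le_one K _ fun v =>
      (memO v _).1 (local_int (loc_adic v) a M (hloc' v) m hm)
  have hfin := relIndex_fg (stdLat R K n) M hfg fun x => by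
    obtain ⟨t, ht, h⟩ := exists_mul_int (R := R) x
    exact ⟨t, ht, mem_stdLat.2 fun i => by rw [Pi.smul_apply, Algebra.smul_def]; exact h i⟩
  obtain ⟨σ, hσ, hσM⟩ := descent (Qf a K) han' _ hL heuc' _ M hM hfin le_rfl
  have hpol : ∀ x y, polar (Qf a K) (σ x) (σ y) = polar (Qf a K) x y := fun x y => by
    unfold polar
    rw [← map_add, hσ, hσ, hσ]
  obtain ⟨d, hd, hdM⟩ := exists_smul_std M hspan
  have key : ∀ l, σ l ∈ stdLat R K n → l ∈ M := by
    intro l hl
    obtain ⟨t, ht, htl⟩ := exists_smul_mem M hspan l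
    let I : Ideal R := M.comap (LinearMap.toSpanSingleton R _ l)
    by_contra hlM
    have hI : I ≠ ⊤ := fun h => hlM (by
      have h1 : (1 : R) ∈ I := h ▸ Submodule.mem_top
      have h2 : (1 : R) • l ∈ M := h1
      rwa [one_smul] at h2)
    obtain ⟨P, hP, hIP⟩ := Ideal.exists_le_maximal I hI
    have hP0 : P ≠ ⊥ := fun h => ht (by
      have h1 : t ∈ P := hIP htl
      rwa [h] at h1)
    let v : HeightOneSpectrum R := ⟨P, hP.isPrime, hP0⟩
    have h1 := local_mem (loc_adic v) a (maximal (Qf a K) han' _ hL heuc') M (hloc' v) l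
      (by rw [← hσ]; exact hL _ hl)
      (fun m hm => by rw [← hpol]; exact polar_int _ hL hl (hσM m hm)) t ht htl
    obtain ⟨s, hs, hsl⟩ := local_global (loc_adic v) M d hd hdM l h1
    exact hs (hIP hsl)
  have hmap : M.map (σ.restrictScalars R).toLinearMap = stdLat R K n := by
    apply le_antisymm
    · rintro _ ⟨m, hm, rfl⟩
      exact hσM m hm
    · intro y hy
      exact ⟨σ.symm y, key _ (by rwa [LinearEquiv.apply_symm_apply]), σ.apply_symm_apply y⟩
  refine ⟨(σ.restrictScalars R).ofSubmodules M _ hmap, fun x => ?_⟩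
  rw [← Qf_apply, ← Qf_apply]
  exact hσ x

end Pool.Agent.H719Z.Euc
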